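import Pool.Agent.W544.FF.Defs

/-!
# Block-diagonal singular value decomposition
-/

set_option autoImplicit false

open Matrix Finset Module

namespace Pool.Agent.W925.FF.Svd

open Pool.Agent.W544.PG Pool.Agent.W544.FF

noncomputable section

theorem BD_mul {n r : ℕ} {c : Fin n → Fin r} {A B : Matrix (Fin n) (Fin n) ℝ} (hA : BD c A)
    (hB : BD c B) : BD c (A * B) := by
  intro a b h
  rw [Matrix.mul_apply]
  refine Finset.sum_eq_zero fun x _ => ?_
  by_cases hx : c a = c x
  · rw [hB x b (fun h' => h (hx.trans h')), mul_zero]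
  · rw [hA a x hx, zero_mul]

theorem BD_tr {n r : ℕ} {c : Fin n → Fin r} {A : Matrix (Fin n) (Fin n) ℝ} (hA : BD c A) :
    BD c Aᵀ := fun a b h => hA b a (fun h' => h h'.symm)

theorem BD_diag {n r : ℕ} {c : Fin n → Fin r} (d : Fin n → ℝ) : BD c (Matrix.diagonal d) := by
  intro a b h
  exact Matrix.diagonal_apply_ne _ (fun h' => h (by rw [h']))

/-- the spectral theorem for real symmetric matrices -/
theorem spec {ι : Type} [Fintype ι] [DecidableEq ι] (S : Matrix ι ι ℝ) (hS : Sᵀ = S) :
    ∃ (U : Matrix ι ι ℝ) (l : ι → ℝ), Uᵀ * U = 1 ∧ U * Uᵀ = 1 ∧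
      S = U * Matrix.diagonal l * Uᵀ := by
  have hH : S.IsHermitian := by
    rw [Matrix.IsHermitian, Matrix.conjTranspose_eq_transpose_of_trivial]
    exact hS
  refine ⟨(hH.eigenvectorUnitary : Matrix ι ι ℝ), hH.eigenvalues, ?_, ?_, ?_⟩
  · have := Unitary.star_mul_self_of_mem hH.eigenvectorUnitary.2
    rwa [Matrix.star_eq_conjTranspose, Matrix.conjTranspose_eq_transpose_of_trivial] at this
  · have := Unitary.mul_star_self_of_mem hH.eigenvectorUnitary.2
    rwa [Matrix.star_eq_conjTranspose, Matrix.conjTranspose_eq_transpose_of_trivial] at this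
  · have := hH.spectral_theorem
    rw [Unitary.conjStarAlgAut_apply, Matrix.star_eq_conjTranspose,
      Matrix.conjTranspose_eq_transpose_of_trivial] at this
    exact this

section
variable {n r : ℕ} (c : Fin n → Fin r)

/-- the fibres -/
abbrev e : Fin n ≃ (Σ i : Fin r, {a : Fin n // c a = i}) := (Equiv.sigmaFiberEquiv c).symm

theorem block_eq {A : Matrix (Fin n) (Fin n) ℝ} (hA : BD c A) :
    A = (Matrix.blockDiagonal' fun i : Fin r =>
      A.submatrix (Subtype.val : {a : Fin n // c a = i} → Fin n) Subtype.val).submatrix (e c) (e c) := by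
  have key : ∀ s t : (Σ i : Fin r, {a : Fin n // c a = i}),
      (Matrix.blockDiagonal' fun i : Fin r =>
        A.submatrix (Subtype.val : {a : Fin n // c a = i} → Fin n) Subtype.val) s t =
      A s.2.1 t.2.1 := by
    rintro ⟨i, x⟩ ⟨j, y⟩
    by_cases h : i = j
    · subst h
      rw [Matrix.blockDiagonal'_apply_eq]
      rfl
    · rw [Matrix.blockDiagonal'_apply_ne _ _ _ h]
      exact (hA _ _ (by rw [x.2, y.2]; exact h)).symm
  ext a b
  rw [Matrix.submatrix_apply, key]
  rfl

theorem BD_block (M : ∀ i : Fin r, Matrix {a : Fin n // c a = i} {a : Fin n // c a = i} ℝ) :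
    BD c ((Matrix.blockDiagonal' M).submatrix (e c) (e c)) := by
  intro a b h
  rw [Matrix.submatrix_apply]
  exact Matrix.blockDiagonal'_apply_ne _ _ _ h

end

theorem svd : S_svd := by
  intro n r c A hA hdet
  classical
  set S := Aᵀ * A with hS
  have hSt : Sᵀ = S := by rw [hS, Matrix.transpose_mul, Matrix.transpose_transpose]
  have hSB : BD c S := BD_mul (BD_tr hA) hA
  have hsp : ∀ i : Fin r, ∃ (U : Matrix {a : Fin n // c a = i} {a : Fin n // c a = i} ℝ)
      (l : {a : Fin n // c a = i} → ℝ), Uᵀ * U = 1 ∧ U * Uᵀ = 1 ∧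
      S.submatrix Subtype.val Subtype.val = U * Matrix.diagonal l * Uᵀ := by
    intro i
    apply spec
    rw [Matrix.transpose_submatrix, hSt]
  choose U l hU1 hU2 hU3 using hsp
  set V : Matrix (Fin n) (Fin n) ℝ := (Matrix.blockDiagonal' U).submatrix (e c) (e c) with hV
  set lam : Fin n → ℝ := fun a => l (e c a).1 (e c a).2 with hlam
  have hVB : BD c V := BD_block c U
  have hVt : Vᵀ = (Matrix.blockDiagonal' fun i => (U i)ᵀ).submatrix (e c) (e c) := by
    rw [hV, Matrix.transpose_submatrix, Matrix.blockDiagonal'_transpose]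
  have hVV : Vᵀ * V = 1 := by
    rw [hVt, hV, Matrix.submatrix_mul_equiv, ← Matrix.blockDiagonal'_mul]
    simp only [hU1]
    rw [show (fun i : Fin r => (1 : Matrix {a : Fin n // c a = i} {a : Fin n // c a = i} ℝ)) = 1
      from rfl, Matrix.blockDiagonal'_one, Matrix.submatrix_one_equiv]
  have hVV' : V * Vᵀ = 1 := by
    rw [hVt, hV, Matrix.submatrix_mul_equiv, ← Matrix.blockDiagonal'_mul]
    simp only [hU2]
    rw [show (fun i : Fin r => (1 : Matrix {a : Fin n // c a = i} {a : Fin n // c a = i} ℝ)) = 1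
      from rfl, Matrix.blockDiagonal'_one, Matrix.submatrix_one_equiv]
  have hD : Matrix.diagonal lam =
      (Matrix.blockDiagonal' fun i => Matrix.diagonal (l i)).submatrix (e c) (e c) := by
    rw [Matrix.blockDiagonal'_diagonal, Matrix.submatrix_diagonal_equiv]
    rfl
  have hSV : S = V * Matrix.diagonal lam * Vᵀ := by
    rw [hVt, hD, hV, Matrix.submatrix_mul_equiv, Matrix.submatrix_mul_equiv,
      ← Matrix.blockDiagonal'_mul, ← Matrix.blockDiagonal'_mul]
    conv_lhs => rw [block_eq c hSB]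
    congr 2
    funext i
    exact hU3 i
  have hVSV : Vᵀ * S * V = Matrix.diagonal lam := by
    rw [hSV]
    calc Vᵀ * (V * Matrix.diagonal lam * Vᵀ) * V
        = (Vᵀ * V) * Matrix.diagonal lam * (Vᵀ * V) := by simp only [Matrix.mul_assoc]
      _ = Matrix.diagonal lam := by rw [hVV, Matrix.one_mul, Matrix.mul_one]
  have hAV : (A * V)ᵀ * (A * V) = Matrix.diagonal lam := by
    rw [← hVSV, hS, Matrix.transpose_mul]
    simp only [Matrix.mul_assoc]
  have hnn : ∀ a, 0 ≤ lam a := by
    intro a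
    have h := congrFun (congrFun hAV a) a
    rw [Matrix.diagonal_apply_eq, Matrix.mul_apply] at h
    rw [← h]
    refine Finset.sum_nonneg fun x _ => ?_
    rw [Matrix.transpose_apply]
    exact mul_self_nonneg _
  have hne : ∀ a, lam a ≠ 0 := by
    have h1 : S.det ≠ 0 := by
      rw [hS, Matrix.det_mul, Matrix.det_transpose]
      exact mul_ne_zero hdet hdet
    rw [hSV, Matrix.det_mul, Matrix.det_mul, Matrix.det_diagonal] at h1
    have h2 : ∏ a, lam a ≠ 0 := by
      intro h
      apply h1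
      rw [h]; ring
    exact fun a => (Finset.prod_ne_zero_iff.1 h2) a (Finset.mem_univ a)
  have hpos : ∀ a, 0 < Real.sqrt (lam a) := fun a =>
    Real.sqrt_pos.2 (lt_of_le_of_ne (hnn a) (hne a).symm)
  set δ : Fin n → ℝ := fun a => Real.sqrt (lam a) with hδ
  set D := Matrix.diagonal fun a => (δ a)⁻¹ with hDd
  have hDδ : D * Matrix.diagonal δ = 1 := by
    rw [hDd, Matrix.diagonal_mul_diagonal, ← Matrix.diagonal_one]
    congr 1
    funext a
    exact inv_mul_cancel₀ (hpos a).ne'
  have hDl : D * Matrix.diagonal lam * D = 1 := by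
    rw [hDd, Matrix.diagonal_mul_diagonal, Matrix.diagonal_mul_diagonal, ← Matrix.diagonal_one]
    congr 1
    funext a
    have h1 : lam a = δ a * δ a := (Real.mul_self_sqrt (hnn a)).symm
    have h2 : δ a ≠ 0 := (hpos a).ne'
    rw [h1]
    field_simp
  refine ⟨A * V * D, Vᵀ, δ, BD_mul (BD_mul hA hVB) (BD_diag _), BD_tr hVB, ?_, ?_,
    fun a => (hpos a).le, ?_⟩
  · have hDt : Dᵀ = D := Matrix.diagonal_transpose _
    rw [Matrix.transpose_mul, hDt]
    calc D * (A * V)ᵀ * (A * V * D) = D * ((A * V)ᵀ * (A * V)) * D := by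
          simp only [Matrix.mul_assoc]
      _ = 1 := by rw [hAV, hDl]
  · rw [Matrix.transpose_transpose, hVV']
  · calc A = A * (V * Vᵀ) := by rw [hVV', Matrix.mul_one]
      _ = A * V * (D * Matrix.diagonal δ) * Vᵀ := by
        rw [hDδ, Matrix.mul_one, Matrix.mul_assoc]
      _ = A * V * D * Matrix.diagonal δ * Vᵀ := by simp only [Matrix.mul_assoc]

end

end Pool.Agent.W925.FF.Svd
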